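import Mathlib

namespace Pool.Agent.Results.MP_c0911c_al.Full

/-- terms of the language `(+, -, 0, ·)` -/
inductive Term : Type
  | var : ℕ → Term
  | zero : Term
  | add : Term → Term → Term
  | neg : Term → Term
  | mul : Term → Term → Term

def eval {S : Type*} [NonUnitalRing S] (v : ℕ → S) : Term → S
  | .var i => v i
  | .zero => 0
  | .add s t => eval v s + eval v t
  | .neg s => - eval v s
  | .mul s t => eval v s * eval v t

/-- the identity `s = t` holds in the ring `S` -/
def Holds (S : Type*) [NonUnitalRing S] (s t : Term) : Prop := ∀ v : ℕ → S, eval v s = eval v t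

/-- some identity holds in all proper quotients `R / I` (`I ≠ 0`) but fails in `R` -/
def Critical (R : Type*) [NonUnitalRing R] : Prop :=
  ∃ s t : Term, (∀ I : TwoSidedIdeal R, I ≠ ⊥ → Holds I.ringCon.Quotient s t) ∧ ¬ Holds R s t

section
variable {R : Type*}

theorem eval_coe [NonUnitalRing R] (c : RingCon R) (v : ℕ → R) (t : Term) :
    eval (fun i => (v i : c.Quotient)) t = ((eval v t : R) : c.Quotient) := by
  induction t with
  | var i => rfl
  | zero => rfl
  | add s t h1 h2 => simp only [eval, h1, h2]; rfl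
  | neg s h => simp only [eval, h]; rfl
  | mul s t h1 h2 => simp only [eval, h1, h2]; rfl

theorem holds_quot [NonUnitalRing R] (I : TwoSidedIdeal R) (s t : Term) :
    Holds I.ringCon.Quotient s t ↔ ∀ v : ℕ → R, eval v s - eval v t ∈ I := by
  constructor
  · intro h v
    have := h fun i => (v i : I.ringCon.Quotient)
    rw [eval_coe, eval_coe, RingCon.eq] at this
    exact (I.rel_iff _ _).1 this
  · intro h w
    have hs : ∀ i, ∃ x : R, (x : I.ringCon.Quotient) = w i := fun i => Quot.exists_rep (w i)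
    choose v hv using hs
    have e : w = fun i => (v i : I.ringCon.Quotient) := funext fun i => (hv i).symm
    rw [e, eval_coe, eval_coe, RingCon.eq]
    exact (I.rel_iff _ _).2 (h v)

variable [NonUnitalCommRing R]

/-- `x ^ (k + 1)` -/
def npw (x : R) : ℕ → R
  | 0 => x
  | k + 1 => x * npw x k

theorem npw_coe (x : R) (k : ℕ) : ((npw x k : R) : Unitization ℤ R) = (x : Unitization ℤ R) ^ (k + 1) := by
  induction k with
  | zero => simp [npw]
  | succ k ih => rw [npw, Unitization.inr_mul, ih]; ring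

theorem exists_N [Finite R] : ∃ K : ℕ, ∀ x : R,
    (x : Unitization ℤ R) ^ (K + 1) * (x : Unitization ℤ R) ^ (K + 1) = (x : Unitization ℤ R) ^ (K + 1) := by
  have h1 : ∀ x : R, ∃ a d : ℕ, 0 < d ∧
      (x : Unitization ℤ R) ^ (a + d) = (x : Unitization ℤ R) ^ a := by
    intro x
    obtain ⟨i, j, hij, h⟩ := Finite.exists_ne_map_eq_of_infinite (npw x)
    have h' := congrArg (fun y : R => (y : Unitization ℤ R)) h
    simp only [npw_coe] at h'
    rcases lt_or_gt_of_ne hij with l | l
    · exact ⟨i + 1, j - i, by omega, by rw [h']; congr 1; omega⟩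
    · exact ⟨j + 1, i - j, by omega, by rw [← h']; congr 1; omega⟩
  choose a d hd h using h1
  obtain ⟨B, hB⟩ := (Set.finite_range fun x => a x + d x).bddAbove
  have hB' : ∀ x, a x + d x ≤ B := fun x => hB ⟨x, rfl⟩
  refine ⟨B.factorial - 1, fun x => ?_⟩
  have hp := B.factorial_pos
  rw [show B.factorial - 1 + 1 = B.factorial by omega]
  have h2 : ∀ k n, a x ≤ n →
      (x : Unitization ℤ R) ^ (n + d x * k) = (x : Unitization ℤ R) ^ n := by
    intro k n hn
    induction k with
    | zero => simp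
    | succ k ih =>
      obtain ⟨m, hm⟩ : ∃ m, n + d x * k = a x + m := ⟨n + d x * k - a x, by omega⟩
      rw [← ih, show n + d x * (k + 1) = (a x + d x) + m by rw [mul_add]; omega, pow_add, h x,
        ← pow_add, hm]
  obtain ⟨k, hk⟩ := Nat.dvd_factorial (hd x) (le_trans (by omega) (hB' x))
  have h3 := h2 k B.factorial (le_trans (le_trans (by omega) (hB' x)) B.self_le_factorial)
  rw [← pow_add]
  rwa [← hk] at h3

def tpw (t : Term) : ℕ → Term
  | 0 => t
  | k + 1 => .mul t (tpw t k)

def tsm (t : Term) : ℕ → Term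
  | 0 => .zero
  | k + 1 => .add (tsm t k) t

def tT (K : ℕ) : ℕ → Term
  | 0 => .var 0
  | c + 1 => .mul (tT K c) (.add (.var (c + 1)) (.neg (tpw (.var (c + 1)) (K + 1))))

theorem eval_tpw (v : ℕ → R) (t : Term) (k : ℕ) : eval v (tpw t k) = npw (eval v t) k := by
  induction k with
  | zero => rfl
  | succ k ih => simp only [tpw, eval, npw, ih]

theorem eval_tsm (v : ℕ → R) (t : Term) (k : ℕ) : eval v (tsm t k) = k • eval v t := by
  induction k with
  | zero => simp [tsm, eval]
  | succ k ih => simp only [tsm, eval, ih, succ_nsmul]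

theorem eval_tT (v : ℕ → R) (K c : ℕ) :
    eval v (tT K (c + 1)) = eval v (tT K c) * (v (c + 1) - npw (v (c + 1)) (K + 1)) := by
  simp only [tT, eval, eval_tpw, sub_eq_add_neg]

theorem eval_congr (v w : ℕ → R) (K c : ℕ) (h : ∀ i ≤ c, v i = w i) :
    eval v (tT K c) = eval w (tT K c) := by
  induction c with
  | zero => exact h 0 le_rfl
  | succ c ih => rw [eval_tT, eval_tT, ih fun i hi => h i (by omega), h _ le_rfl]

theorem unit_of {M : TwoSidedIdeal R} (hM : M ≠ ⊥) (hl : ∀ I, I ≠ ⊥ → M ≤ I) {e : R}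
    (he : e * e = e) (h0 : e ≠ 0) (y : R) : e * y = y := by
  let A : TwoSidedIdeal R := TwoSidedIdeal.mk' {y | e * y = y} (by simp)
    (fun {x y} (a : e * x = x) (b : e * y = y) => show e * (x + y) = x + y by rw [mul_add, a, b])
    (fun {x} (a : e * x = x) => show e * (-x) = -x by rw [mul_neg, a])
    (fun {x y} (a : e * y = y) => show e * (x * y) = x * y by rw [mul_left_comm, a])
    (fun {x y} (a : e * x = x) => show e * (x * y) = x * y by rw [← mul_assoc, a])
  let B : TwoSidedIdeal R := TwoSidedIdeal.mk' {y | e * y = 0} (by simp)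
    (fun {x y} (a : e * x = 0) (b : e * y = 0) => show e * (x + y) = 0 by rw [mul_add, a, b, add_zero])
    (fun {x} (a : e * x = 0) => show e * (-x) = 0 by rw [mul_neg, a, neg_zero])
    (fun {x y} (a : e * y = 0) => show e * (x * y) = 0 by rw [mul_left_comm, a, mul_zero])
    (fun {x y} (a : e * x = 0) => show e * (x * y) = 0 by rw [← mul_assoc, a, zero_mul])
  have hA : ∀ y, y ∈ A ↔ e * y = y := fun y => TwoSidedIdeal.mem_mk' _ _ _ _ _ _ y
  have hB : ∀ y, y ∈ B ↔ e * y = 0 := fun y => TwoSidedIdeal.mem_mk' _ _ _ _ _ _ y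
  have a1 : A ≠ ⊥ := fun h => h0 (by have := (hA e).2 he; rwa [h, TwoSidedIdeal.mem_bot] at this)
  have b1 : B = ⊥ := by
    by_contra b
    apply hM
    refine le_antisymm (fun m hm => ?_) bot_le
    have h1 := (hA m).1 (hl A a1 hm)
    have h2 := (hB m).1 (hl B b hm)
    exact (TwoSidedIdeal.mem_bot _).2 (h1.symm.trans h2)
  have : y - e * y ∈ B := (hB _).2 (by rw [mul_sub, ← mul_assoc, he, sub_self])
  rw [b1, TwoSidedIdeal.mem_bot] at this
  exact (sub_eq_zero.1 this).symm

theorem socle {M : TwoSidedIdeal R} (hM : M ≠ ⊥) (hl : ∀ I, I ≠ ⊥ → M ≤ I) {K : ℕ}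
    (hK : ∀ x : R, npw x K * npw x K = npw x K) {p : ℕ} (hp : p.Prime) {a : R}
    (h1 : ∀ x : R, a * (x - npw x (K + 1)) = 0) (h2 : p • a = 0) : a ∈ M := by
  by_cases h0 : a = 0
  · rw [h0]; exact M.zero_mem
  let I : TwoSidedIdeal R := TwoSidedIdeal.mk' {y | ∃ (k : ℤ) (r : R), y = k • a + r * a}
    ⟨0, 0, by simp⟩
    (by
      rintro _ _ ⟨k, r, rfl⟩ ⟨k', r', rfl⟩
      exact ⟨k + k', r + r', by rw [add_smul, add_mul]; abel⟩)
    (by
      rintro _ ⟨k, r, rfl⟩
      exact ⟨-k, -r, by rw [neg_smul, neg_mul]; abel⟩)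
    (by
      rintro x _ ⟨k, r, rfl⟩
      exact ⟨0, k • x + x * r, by
        rw [zero_smul, zero_add, mul_add, add_mul, mul_assoc, mul_smul_comm, smul_mul_assoc]⟩)
    (by
      rintro _ x ⟨k, r, rfl⟩
      exact ⟨0, k • x + x * r, by
        rw [mul_comm, zero_smul, zero_add, mul_add, add_mul, mul_assoc, mul_smul_comm,
          smul_mul_assoc]⟩)
  have hI : ∀ y, y ∈ I ↔ ∃ (k : ℤ) (r : R), y = k • a + r * a :=
    fun y => TwoSidedIdeal.mem_mk' _ _ _ _ _ _ y
  have I0 : I ≠ ⊥ := fun h => h0 (by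
    have := (hI a).2 ⟨1, 0, by simp⟩
    rwa [h, TwoSidedIdeal.mem_bot] at this)
  obtain ⟨m, hm, m0⟩ : ∃ m ∈ M, m ≠ 0 := by
    by_contra h
    push Not at h
    exact hM (le_antisymm (fun m hm => (TwoSidedIdeal.mem_bot _).2 (h m hm)) bot_le)
  obtain ⟨k, r, e⟩ := (hI m).1 (hl I I0 hm)
  have key : ∀ x : R, x * a ≠ 0 → ∀ y, npw x K * y = y := by
    intro x hx
    apply unit_of hM hl (hK x)
    intro h
    apply hx
    have := h1 x
    rwa [npw, h, mul_zero, sub_zero, mul_comm] at this
  by_cases hc : ∀ x : R, x * a = 0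
  · rw [hc, add_zero] at e
    have hnd : ¬ (p : ℤ) ∣ k := by
      rintro ⟨u, rfl⟩
      apply m0
      rw [e, mul_comm, mul_smul, natCast_zsmul, h2, smul_zero]
    obtain ⟨u, w, h⟩ := (Nat.prime_iff_prime_int.1 hp).irreducible.coprime_iff_not_dvd.2 hnd
    have : a = w • m := by
      calc a = (u * p + w * k) • a := by rw [h, one_smul]
        _ = w • m := by rw [add_smul, mul_smul, natCast_zsmul, h2, smul_zero, zero_add, mul_smul, e]
    rw [this]
    exact M.zsmul_mem w hm
  · push Not at hc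
    obtain ⟨x, hx⟩ := hc
    have e2 : (k • npw x K + r) * a = m := by rw [add_mul, smul_mul_assoc, key x hx, e]
    have h3 : ∀ j, npw (k • npw x K + r) j * a ∈ M := by
      intro j
      induction j with
      | zero => rw [npw, e2]; exact hm
      | succ j ih => rw [npw, mul_assoc]; exact M.mul_mem_left _ _ ih
    have := h3 K
    rwa [key _ (by rw [e2]; exact m0)] at this

theorem vanish [Finite R] {U : Type*} [CommRing U] (f : R →ₙ+* U) (hf : Function.Injective f)
    {K : ℕ} (hK : ∀ x : R, npw x K * npw x K = npw x K) :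
    ∃ c, ∀ v : ℕ → R, eval v (tT K c) = 0 := by
  have hp : ∀ (x : R) (k : ℕ), f (npw x k) = f x ^ (k + 1) := by
    intro x k
    induction k with
    | zero => simp [npw]
    | succ k ih => rw [npw, map_mul, ih]; ring
  let J : Ideal U := Ideal.span (Set.range fun x : R => f (x - npw x (K + 1)))
  have hfg : J.FG := Submodule.fg_span (Set.finite_range _)
  have hle : J ≤ nilradical U := by
    rw [Ideal.span_le]
    rintro _ ⟨x, rfl⟩
    refine mem_nilradical.2 ⟨K + 1, ?_⟩
    simp only [map_sub, hp]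
    have h1 := congrArg f (hK x)
    rw [map_mul, hp] at h1
    have : f x - f x ^ (K + 1 + 1) = f x * (1 - f x ^ (K + 1)) := by ring
    rw [this, mul_pow, pow_succ' (1 - _), ← mul_assoc, mul_sub, mul_one, h1, sub_self, zero_mul]
  obtain ⟨c, hc⟩ := hfg.isNilpotent_iff_le_nilradical.2 hle
  have : ∀ (c : ℕ) (v : ℕ → R), f (eval v (tT K c)) ∈ J ^ c := by
    intro c v
    induction c with
    | zero => simp
    | succ c ih =>
      rw [eval_tT, map_mul, pow_succ]
      exact Ideal.mul_mem_mul ih (Ideal.subset_span ⟨_, rfl⟩)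
  refine ⟨c, fun v => ?_⟩
  have h := this c v
  rw [hc] at h
  apply hf
  simpa using h

end

theorem result (R : Type*) [NonUnitalCommRing R] [Finite R] :
    Critical R ↔ ∃ M : TwoSidedIdeal R, M ≠ ⊥ ∧ ∀ I : TwoSidedIdeal R, I ≠ ⊥ → M ≤ I := by
  classical
  constructor
  · rintro ⟨s, t, h1, h2⟩
    simp only [Holds, not_forall] at h2
    obtain ⟨v, hv⟩ := h2
    refine ⟨sInf {I | I ≠ ⊥}, fun h => hv ?_, fun I hI => sInf_le hI⟩
    have : eval v s - eval v t ∈ sInf {I : TwoSidedIdeal R | I ≠ ⊥} :=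
      (TwoSidedIdeal.mem_sInf _).2 fun I hI => (holds_quot I s t).1 (h1 I hI) v
    rw [h, TwoSidedIdeal.mem_bot] at this
    exact sub_eq_zero.1 this
  · rintro ⟨M, hM, hl⟩
    obtain ⟨K, hK⟩ := exists_N (R := R)
    have hK' : ∀ x : R, npw x K * npw x K = npw x K := fun x => by
      apply Unitization.inr_injective (R := ℤ)
      rw [Unitization.inr_mul, npw_coe, hK]
    have hex := vanish (U := Unitization ℤ R) (Unitization.inrNonUnitalAlgHom ℤ R)
      (Unitization.inr_injective (R := ℤ)) hK'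
    have c0 : Nat.find hex ≠ 0 := by
      intro h
      have h1 := Nat.find_spec hex
      rw [h] at h1
      exact hM (le_antisymm (fun m _ => (TwoSidedIdeal.mem_bot _).2 (h1 fun _ => m)) bot_le)
    obtain ⟨c, hc⟩ := Nat.exists_eq_succ_of_ne_zero c0
    have a1 : ¬ ∀ v : ℕ → R, eval v (tT K c) = 0 := Nat.find_min hex (by omega)
    have a2 : ∀ (v : ℕ → R) (x : R), eval v (tT K c) * (x - npw x (K + 1)) = 0 := by
      intro v x
      have h1 := Nat.find_spec hex (Function.update v (c + 1) x)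
      rw [hc, eval_tT, Function.update_self, eval_congr _ v K c
        fun i hi => Function.update_of_ne (by omega) _ _] at h1
      exact h1
    have hex2 : ∃ n, 0 < n ∧ ∀ v : ℕ → R, n • eval v (tT K c) = 0 :=
      ⟨Nat.card R, Nat.card_pos, fun v => card_nsmul_eq_zero'⟩
    obtain ⟨b1, b2⟩ := Nat.find_spec hex2
    have n1 : Nat.find hex2 ≠ 1 := fun h => a1 (by simpa [h] using b2)
    obtain ⟨p, hp, n, hn⟩ := Nat.exists_prime_and_dvd n1
    have npos : 0 < n := Nat.pos_of_ne_zero fun h => by rw [h] at hn; omega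
    have b3 : ¬ (0 < n ∧ ∀ v : ℕ → R, n • eval v (tT K c) = 0) :=
      Nat.find_min hex2 (by rw [hn]; have := hp.two_le; nlinarith)
    refine ⟨tsm (tT K c) n, .zero, fun I hI => (holds_quot I _ _).2 fun v => ?_, fun h => ?_⟩
    · rw [eval_tsm, eval, sub_zero]
      apply hl I hI
      apply socle hM hl hK' hp
      · intro x
        rw [smul_mul_assoc, a2, smul_zero]
      · rw [← mul_smul, ← hn, b2]
    · exact b3 ⟨npos, fun v => by rw [← eval_tsm]; exact h v⟩

end Pool.Agent.Results.MP_c0911c_al.Full
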